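import Pool.Agent.Helper26.MCE.GoalsA

/-!
# Packet MCE-SUC: the successor subgroup
-/

set_option autoImplicit false
set_option linter.unusedSectionVars false

namespace Pool.Agent.Helper13.MCE

open Finset Pool.Agent.Helper87.MC Pool.Agent.Helper26.MCE

variable {G : Type} [AddCommGroup G] [Fintype G]

theorem mem_full {D : Finset G} {K : AddSubgroup G} {x : G} :
    x ∈ full D K ↔ x ∈ D ∧ ∀ h ∈ K, x + h ∈ D := by
  simp [full]

theorem mem_full' {D : Finset G} {K : AddSubgroup G} {x : G} :
    x ∈ full D K ↔ ∀ h ∈ K, x + h ∈ D := by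
  rw [mem_full]
  refine ⟨fun h => h.2, fun h => ⟨?_, h⟩⟩
  have := h 0 K.zero_mem
  rwa [add_zero] at this

theorem mem_fib {D : Finset G} {K : AddSubgroup G} {x y : G} :
    y ∈ fib D K x ↔ y ∈ D ∧ y - x ∈ K := by
  simp [fib]

theorem not_mem_full {D : Finset G} {K : AddSubgroup G} {x : G} :
    x ∉ full D K ↔ NF D K x := by
  rw [mem_full', NF]
  push Not
  rfl

/-- The stabiliser of a set. -/
def stab (E : Finset G) : AddSubgroup G where
  carrier := {h | ∀ x, x + h ∈ E ↔ x ∈ E}
  zero_mem' := fun x => by rw [add_zero]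
  add_mem' := fun {a b} ha hb x => by rw [← add_assoc, hb, ha]
  neg_mem' := fun {a} ha x => by
    rw [← ha (x + -a), neg_add_cancel_right]

theorem mem_stab {E : Finset G} {h : G} : h ∈ stab E ↔ ∀ x, x + h ∈ E ↔ x ∈ E := Iff.rfl

theorem le_stab {E : Finset G} {P : AddSubgroup G} (h : Per E P) : P ≤ stab E := by
  intro p hp x
  refine ⟨fun hx => ?_, fun hx => h x hx p hp⟩
  have := h _ hx (-p) (P.neg_mem hp)
  rwa [add_neg_cancel_right] at this

theorem per_full (D : Finset G) (K : AddSubgroup G) : Per (full D K) K := by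
  intro x hx h hh
  rw [mem_full'] at hx ⊢
  intro k hk
  rw [add_assoc]
  exact hx _ (K.add_mem hh hk)

open Classical in
theorem card_coset (K : AddSubgroup G) (x : G) :
    (univ.filter fun u => u - x ∈ K).card = Nat.card K := by
  rw [Nat.card_eq_fintype_card, ← Finset.card_univ]
  symm
  refine Finset.card_bij (fun (k : K) _ => (k : G) + x) ?_ ?_ ?_
  · intro k _
    rw [mem_filter]
    refine ⟨mem_univ _, ?_⟩
    rw [add_sub_cancel_right]
    exact k.2
  · intro a _ b _ h
    exact Subtype.ext (add_right_cancel h)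
  · intro u hu
    rw [mem_filter] at hu
    exact ⟨⟨u - x, hu.2⟩, mem_univ _, sub_add_cancel u x⟩

open Classical in
theorem dc (F : Finset G) (H L : AddSubgroup G) (hHL : H ≤ L) (x : G) :
    ∑ u ∈ univ.filter (fun u => u - x ∈ L), (fib F H u).card =
      Nat.card H * (fib F L x).card := by
  have h1 : ∀ u, (fib F H u).card = ∑ z ∈ F, if z - u ∈ H then 1 else 0 := by
    intro u
    rw [fib, card_filter]
  simp_rw [h1]
  rw [Finset.sum_comm]
  have h2 : ∀ z ∈ F, ∑ u ∈ univ.filter (fun u => u - x ∈ L), (if z - u ∈ H then 1 else 0) =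
      if z - x ∈ L then Nat.card H else 0 := by
    intro z _
    split_ifs with hz
    · rw [← card_coset H z, card_filter, Finset.sum_filter]
      refine Finset.sum_congr rfl (fun u _ => ?_)
      by_cases hu : u - z ∈ H
      · have e1 : z - u ∈ H := by
          have := H.neg_mem hu
          rwa [neg_sub] at this
        have e2 : u - x ∈ L := by
          have := L.add_mem (hHL hu) hz
          rwa [sub_add_sub_cancel] at this
        rw [if_pos e2, if_pos e1, if_pos hu]
      · have e1 : z - u ∉ H := by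
          intro h
          apply hu
          have := H.neg_mem h
          rwa [neg_sub] at this
        rw [if_neg e1, if_neg hu]
        simp
    · apply Finset.sum_eq_zero
      intro u hu
      rw [mem_filter] at hu
      rw [if_neg]
      intro h
      apply hz
      have := L.add_mem (hHL h) hu.2
      rwa [sub_add_sub_cancel] at this
  rw [Finset.sum_congr rfl h2, ← Finset.sum_filter, Finset.sum_const, smul_eq_mul, mul_comm]
  rfl

theorem card_pos' (K : AddSubgroup G) : (0 : ℝ) < Nat.card K := by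
  exact_mod_cast Nat.card_pos

open Classical in
theorem sumb (F : Finset G) (H L : AddSubgroup G) (hHL : H ≤ L) (x : G) (c : ℝ)
    (h : ∀ u, u - x ∈ L → ((fib F H u).card : ℝ) ≤ c * Nat.card H) :
    ((fib F L x).card : ℝ) ≤ c * Nat.card L := by
  have h1 := dc F H L hHL x
  have h2 : ((∑ u ∈ univ.filter (fun u => u - x ∈ L), (fib F H u).card : ℕ) : ℝ) ≤
      ∑ u ∈ univ.filter (fun u : G => u - x ∈ L), c * Nat.card H := by
    push_cast
    apply Finset.sum_le_sum
    intro u hu
    rw [mem_filter] at hu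
    exact h u hu.2
  rw [h1, Finset.sum_const, card_coset, nsmul_eq_mul] at h2
  push_cast at h2
  have h3 := card_pos' H
  have h4 : (Nat.card H : ℝ) * (fib F L x).card ≤ Nat.card H * (c * Nat.card L) := by
    linarith
  exact le_of_mul_le_mul_left h4 h3

/-- Admissible pairs. -/
structure Adm (D A : Finset G) (K : AddSubgroup G) (τ δ : ℝ) (j : ℕ) (K' : AddSubgroup G) :
    Prop where
  le : K' ≤ K
  clean : Clean D K' (j * δ)
  card : (A.card : ℝ) ≤ (2 * τ) ^ j * (full A K').card
  size : 1 ≤ δ ^ j * Nat.card K'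
  per : ∀ Q : AddSubgroup G, Q ≤ K → Per (full D K') Q → Q ≤ K'

theorem full_bot (D : Finset G) : full D ⊥ = D := by
  ext x
  rw [mem_full']
  constructor
  · intro h
    have := h 0 (AddSubgroup.zero_mem _)
    rwa [add_zero] at this
  · intro h k hk
    rw [AddSubgroup.mem_bot] at hk
    rwa [hk, add_zero]

theorem adm_zero (D A : Finset G) (K : AddSubgroup G) (τ δ : ℝ) (hD : NoPer D) :
    Adm D A K τ δ 0 ⊥ := by
  refine ⟨bot_le, ?_, ?_, ?_, ?_⟩
  · intro x hx
    have h1 : fib D ⊥ x = ∅ := by
      rw [Finset.eq_empty_iff_forall_notMem]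
      intro y hy
      rw [mem_fib, AddSubgroup.mem_bot, sub_eq_zero] at hy
      obtain ⟨hy1, rfl⟩ := hy
      rw [← not_mem_full, full_bot] at hx
      exact hx hy1
    rw [h1]
    simp
  · rw [full_bot]
    simp
  · simp
  · intro Q _ hQ
    rw [full_bot] at hQ
    exact (hD Q hQ).le

theorem full_mono_set {A D : Finset G} (h : A ⊆ D) (K : AddSubgroup G) : full A K ⊆ full D K := by
  intro x hx
  rw [mem_full'] at hx ⊢
  exact fun k hk => h (hx k hk)

theorem full_anti {A : Finset G} {K L : AddSubgroup G} (h : K ≤ L) : full A L ⊆ full A K := by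
  intro x hx
  rw [mem_full'] at hx ⊢
  exact fun k hk => hx k (h hk)

theorem full_full {A : Finset G} {K L : AddSubgroup G} (h : K ≤ L) :
    full (full A K) L = full A L := by
  ext x
  constructor
  · intro hx
    rw [mem_full'] at hx ⊢
    intro k hk
    have := hx k hk
    rw [mem_full] at this
    exact this.1
  · intro hx
    rw [mem_full']
    intro k hk
    exact full_anti h (per_full A L x hx k hk)

open Classical in
theorem adm_succ (h1 : G_HV) (τ ρ δ : ℝ) (ℓ J : ℕ)
    (D A : Finset G) (K : AddSubgroup G) (hτ : 1 ≤ τ) (hρ : 0 < ρ) (hδ : 0 < δ) (hℓ : 1 ≤ ℓ)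
    (hcard : Fintype.card G ≤ 2 ^ ℓ) (hJ : δ ^ J * Fintype.card G < 1)
    (h96 : 96 * τ ^ 2 * ρ * ℓ * (16 * τ ^ 2) ^ J ≤ δ) (h4 : 4 * (1 + ℓ) * δ ≤ 1)
    (hAD : A ⊆ D) (hA : A.Nonempty) (hsat : ∀ x ∈ A, ∀ y ∈ D, y - x ∈ K → y ∈ A)
    (j : ℕ) (K' : AddSubgroup G) (hadm : Adm D A K τ δ j K')
    (hns : ¬ NoSp D (full A K') K K' τ ρ) :
    ∃ K'' : AddSubgroup G, Adm D A K τ δ (j + 1) K'' := by
  obtain ⟨a1, a2, a3, a4, a5⟩ := hadm
  unfold NoSp at hns
  push Not at hns
  obtain ⟨μ, m1, m2, m3, m4, m5⟩ := hns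
  have hA' : (full A K').Nonempty := by
    rw [Finset.nonempty_iff_ne_empty]
    intro h0
    rw [h0] at a3
    simp at a3
    exact hA.ne_empty a3
  have hsat' : ∀ x ∈ full A K', ∀ y ∈ full D K', y - x ∈ K → y ∈ full A K' := by
    intro x hx y hy hyx
    rw [mem_full'] at hy ⊢
    intro h hh
    apply hsat x (mem_full.1 hx).1 _ (hy h hh)
    have e : y + h - x = (y - x) + h := by abel
    rw [e]
    exact K.add_mem hyx (a1 hh)
  obtain ⟨Λ, l1, l2, l3, l4⟩ := h1 G μ τ ρ δ ℓ J (full D K') (full A K') K' K hτ hρ hδ hℓ hcard hJ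
    h96 h4 m1 m2 m3 m5 a1 (per_full D K') (full_mono_set hAD K') hA' hsat' m4
  rw [full_full l1.le] at l4
  -- the new subgroup
  have hΛ : Λ ≤ K ⊓ stab (full D Λ) := le_inf l2 (le_stab (per_full D Λ))
  have fD : full D (K ⊓ stab (full D Λ)) = full D Λ := by
    apply Finset.Subset.antisymm (full_anti hΛ)
    intro x hx
    rw [mem_full']
    intro h hh
    have := (mem_stab.1 hh.2 x).2 hx
    exact (mem_full.1 this).1
  have fA : full A (K ⊓ stab (full D Λ)) = full A Λ := by
    apply Finset.Subset.antisymm (full_anti hΛ)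
    intro x hx
    rw [mem_full']
    intro h hh
    have h2 := (mem_stab.1 hh.2 x).2 (full_mono_set hAD Λ hx)
    apply hsat x (mem_full.1 hx).1 _ (mem_full.1 h2).1
    rw [add_sub_cancel_left]
    exact hh.1
  refine ⟨K ⊓ stab (full D Λ), inf_le_left, ?_, ?_, ?_, ?_⟩
  · -- clean
    intro x hx
    apply sumb D Λ _ hΛ x
    intro y hy
    -- y is not full for Λ
    have hyn : NF D Λ y := by
      rw [← not_mem_full, ← fD, mem_full']
      intro hc
      obtain ⟨h, hh, hxh⟩ := hx
      apply hxh
      have e : x + h = y + (h - (y - x)) := by abel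
      rw [e]
      exact hc _ (AddSubgroup.sub_mem _ hh hy)
    have hyE : NF (full D K') Λ y := by
      obtain ⟨h, hh, hyh⟩ := hyn
      exact ⟨h, hh, fun hc => hyh (mem_full.1 hc).1⟩
    have c1 := l3 y hyE
    have c2 : ((fib (D.filter fun z => z ∉ full D K') Λ y).card : ℝ) ≤ (j * δ) * Nat.card Λ := by
      apply sumb _ K' Λ l1.le y
      intro u _
      by_cases hu : NF D K' u
      · refine le_trans ?_ (a2 u hu)
        have : fib (D.filter fun z => z ∉ full D K') K' u ⊆ fib D K' u := by
          intro z hz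
          rw [mem_fib, mem_filter] at hz
          exact mem_fib.2 ⟨hz.1.1, hz.2⟩
        exact_mod_cast Finset.card_le_card this
      · have h0 : fib (D.filter fun z => z ∉ full D K') K' u = ∅ := by
          rw [Finset.eq_empty_iff_forall_notMem]
          intro z hz
          rw [mem_fib, mem_filter] at hz
          apply hz.1.2
          rw [← not_mem_full, not_not] at hu
          have := per_full D K' u hu _ hz.2
          rwa [add_sub_cancel] at this
        rw [h0, card_empty, Nat.cast_zero]
        have := card_pos' K'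
        positivity
    have c3 : (fib D Λ y).card ≤ (fib (full D K') Λ y).card +
        (fib (D.filter fun z => z ∉ full D K') Λ y).card := by
      refine le_trans (Finset.card_le_card ?_) (Finset.card_union_le _ _)
      intro z hz
      rw [mem_fib] at hz
      rw [mem_union, mem_fib, mem_fib, mem_filter]
      by_cases hzE : z ∈ full D K'
      · exact Or.inl ⟨hzE, hz.2⟩
      · exact Or.inr ⟨⟨hz.1, hzE⟩, hz.2⟩
    have c4 : ((fib D Λ y).card : ℝ) ≤ (fib (full D K') Λ y).card +
        (fib (D.filter fun z => z ∉ full D K') Λ y).card := by exact_mod_cast c3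
    push_cast
    linarith
  · rw [fA]
    calc (A.card : ℝ) ≤ (2 * τ) ^ j * (full A K').card := a3
      _ ≤ (2 * τ) ^ j * (2 * τ * (full A Λ).card) := by gcongr
      _ = _ := by rw [pow_succ]; ring
  · -- size
    have hnp : ¬ Per (full D K') Λ := fun hp => not_le_of_gt l1 (a5 Λ l2 hp)
    unfold Per at hnp
    push Not at hnp
    obtain ⟨x, hx, h, hh, hxh⟩ := hnp
    have s1 := l3 x ⟨h, hh, hxh⟩
    have s2 : Nat.card K' ≤ (fib (full D K') Λ x).card := by
      classical
      rw [← card_coset K' x]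
      apply Finset.card_le_card
      intro u hu
      rw [mem_filter] at hu
      rw [mem_fib]
      refine ⟨?_, l1.le hu.2⟩
      have := per_full D K' x hx _ hu.2
      rwa [add_sub_cancel] at this
    have s3 : Nat.card Λ ≤ Nat.card (K ⊓ stab (full D Λ) : AddSubgroup G) :=
      AddSubgroup.card_le_of_le hΛ
    have s2' : (Nat.card K' : ℝ) ≤ (fib (full D K') Λ x).card := by exact_mod_cast s2
    have s3' : (Nat.card Λ : ℝ) ≤ Nat.card (K ⊓ stab (full D Λ) : AddSubgroup G) := by
      exact_mod_cast s3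
    calc (1 : ℝ) ≤ δ ^ j * Nat.card K' := a4
      _ ≤ δ ^ j * (δ * Nat.card (K ⊓ stab (full D Λ) : AddSubgroup G)) := by
        apply mul_le_mul_of_nonneg_left _ (by positivity)
        calc (Nat.card K' : ℝ) ≤ δ * Nat.card Λ := s2'.trans s1
          _ ≤ _ := by gcongr
      _ = _ := by rw [pow_succ]; ring
  · intro Q hQ hper
    rw [fD] at hper
    exact le_inf hQ (le_stab hper)

theorem goalSUC (h1 : G_HV) : G_SUC := by
  intro G _ _ τ ρ δ ℓ J D A K hτ hρ hδ hℓ hcard hJ h96 h4 hD hAD hA hsat
  have hδ1 : δ ≤ 1 := by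
    have : (0 : ℝ) ≤ ℓ := Nat.cast_nonneg ℓ
    nlinarith
  have hlt : ∀ j K', Adm D A K τ δ j K' → j < J := by
    intro j K' hadm
    by_contra hj
    push Not at hj
    have e1 : δ ^ j ≤ δ ^ J := pow_le_pow_of_le_one hδ.le hδ1 hj
    have e2 : (Nat.card K' : ℝ) ≤ Fintype.card G := by
      rw [← Nat.card_eq_fintype_card]
      exact_mod_cast Nat.card_le_card_of_injective _ K'.subtype_injective
    have e3 := hadm.size
    have e4 : δ ^ j * Nat.card K' ≤ δ ^ J * Fintype.card G := by
      apply mul_le_mul e1 e2 (Nat.cast_nonneg _) (by positivity)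
    linarith
  by_contra hcon
  have hall : ∀ j : ℕ, ∃ K', Adm D A K τ δ j K' := by
    intro j
    induction j with
    | zero => exact ⟨⊥, adm_zero D A K τ δ hD⟩
    | succ j ih =>
      obtain ⟨K', hadm⟩ := ih
      apply adm_succ h1 τ ρ δ ℓ J D A K hτ hρ hδ hℓ hcard hJ h96 h4 hAD hA hsat j K' hadm
      intro hns
      apply hcon
      have hj := (hlt j K' hadm).le
      have hj' : (j : ℝ) ≤ J := by exact_mod_cast hj
      refine ⟨K', hadm.le, ?_, ?_, hns⟩
      · intro x hx
        refine (hadm.clean x hx).trans ?_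
        have := card_pos' K'
        gcongr
      · refine hadm.card.trans ?_
        apply mul_le_mul_of_nonneg_right _ (Nat.cast_nonneg _)
        exact pow_le_pow_right₀ (by linarith) hj
  obtain ⟨K', hadm⟩ := hall J
  exact lt_irrefl _ (hlt J K' hadm)

end Pool.Agent.Helper13.MCE
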